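import Pool.Agent.T9h32.OR.Gen
import Pool.Agent.T9h65.OR.Pol
import Pool.Agent.T9h96.OR.Eig
import Pool.Agent.T9h82.OR.Mat
import Pool.Agent.T9h32.GT.Cnt
import Pool.Agent.Results.MP_b583a4_nt.MostTuples

/-!
# From the polynomial to the criterion for ordinary representations
-/

set_option autoImplicit false

namespace Pool.Agent.T9h32.OR

open Finset Matrix
open Pool.Agent.T9h32.GT (Off Var pt om)

section

variable {ι : Type} [Fintype ι] [DecidableEq ι]

/-- there are no bad tuples of matrices over fields of characteristic `p` -/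
def GdO {p : ℕ} (L : ι → ι → ZMod p) (U B : ι → ZMod p) : Prop :=
  ∀ (K : Type) [Field K] [CharP K p] (ε : K), (ε = 0 ∨ ε = 1) →
    NoTup (fun i j => ZMod.castHom (dvd_refl p) K (L i j))
      (fun i => ZMod.castHom (dvd_refl p) K (U i)) (fun i => ZMod.castHom (dvd_refl p) K (B i)) ε

omit [Fintype ι] [DecidableEq ι] in
theorem aeval_ptO_map {k k' : Type} [CommRing k] [CommRing k'] (g : k →+* k') (L : ι → ι → k)
    (U B : ι → k) (P : MvPolynomial (VarO ι) ℤ) :
    MvPolynomial.aeval (ptO (fun i j => g (L i j)) (fun i => g (U i)) (fun i => g (B i))) P =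
      g (MvPolynomial.aeval (ptO L U B) P) := by
  have e : (MvPolynomial.aeval (ptO (fun i j => g (L i j)) (fun i => g (U i)) (fun i => g (B i))) :
      MvPolynomial (VarO ι) ℤ →ₐ[ℤ] k') = g.toIntAlgHom.comp (MvPolynomial.aeval (ptO L U B)) := by
    refine MvPolynomial.algHom_ext fun v => ?_
    rw [AlgHom.comp_apply, MvPolynomial.aeval_X, MvPolynomial.aeval_X]
    rcases v with (v | v) | v <;> rfl
  rw [e, AlgHom.comp_apply]
  rfl

variable (ι)

theorem exists_poly_gdO : ∃ P : MvPolynomial (VarO ι) ℤ, P ≠ 0 ∧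
    ∀ (p : ℕ) [Fact p.Prime], p ≠ 2 → ∀ (L : ι → ι → ZMod p) (U B : ι → ZMod p),
      MvPolynomial.aeval (ptO L U B) P ≠ 0 → (∀ i, U i ≠ 0) ∧ GdO L U B := by
  obtain ⟨P, hP0, hP⟩ := Pool.Agent.T9h65.OR.poly stGeneric ι
  refine ⟨P * ∏ l : ι, MvPolynomial.X (Sum.inl (Sum.inr l)),
    mul_ne_zero hP0 (Finset.prod_ne_zero_iff.2 fun l _ => MvPolynomial.X_ne_zero _), ?_⟩
  intro p hpF hp2 L U B hne
  have hp : p.Prime := hpF.out
  rw [map_mul, map_prod] at hne
  have h1 := left_ne_zero_of_mul hne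
  have hU : ∀ i, U i ≠ 0 := fun i => by
    have := Finset.prod_ne_zero_iff.1 (right_ne_zero_of_mul hne) i (mem_univ i)
    rwa [MvPolynomial.aeval_X] at this
  refine ⟨hU, ?_⟩
  intro K _ _ ε hε C T hC hsq hrel hv
  let K' : Type := AlgebraicClosure K
  let f : K →+* K' := algebraMap K K'
  let g0 : ZMod p →+* K := ZMod.castHom (dvd_refl p) K
  let g : ZMod p →+* K' := f.comp g0
  have hinj : Function.Injective g := g.injective
  have h2K : (2 : K) ≠ 0 := by
    intro h
    have h5 : ((2 : ℕ) : K) = 0 := by exact_mod_cast h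
    rw [CharP.cast_eq_zero_iff K p] at h5
    exact hp2 ((Nat.prime_dvd_prime_iff_eq hp Nat.prime_two).1 h5)
  have h2K' : (2 : K') ≠ 0 := by
    intro h
    apply h2K
    apply f.injective
    rw [map_zero, map_ofNat]
    exact h
  obtain ⟨e, he, hee⟩ : ∃ e : ℤ, (e = 0 ∨ e = 1) ∧ (e : K) = ε := by
    rcases hε with h | h
    · exact ⟨0, Or.inl rfl, by rw [h, Int.cast_zero]⟩
    · exact ⟨1, Or.inr rfl, by rw [h, Int.cast_one]⟩
  have hN := hP K' (fun i j => g (L i j)) (fun i => g (U i)) (fun i => g (B i)) (by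
    rw [aeval_ptO_map g]
    exact fun h => h1 (hinj (h.trans (map_zero g).symm))) e he
  let F : Matrix (Fin 2) (Fin 2) K →+* Matrix (Fin 2) (Fin 2) K' := f.mapMatrix
  have hsm : ∀ (c : K) (X : Matrix (Fin 2) (Fin 2) K), F (c • X) = f c • F X := by
    intro c X
    ext a b
    simp [F]
  have hF0 : ∀ X : Matrix (Fin 2) (Fin 2) K, F X = 0 → X = 0 := by
    intro X hX
    ext a b
    have h := congrFun (congrFun hX a) b
    exact f.injective (h.trans (map_zero f).symm)
  have hEig : ∀ (X : Matrix (Fin 2) (Fin 2) K) (v : Fin 2 → K), Eig X v →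
      Eig (F X) (fun i => f (v i)) := by
    rintro X v ⟨c, hc⟩
    refine ⟨f c, ?_⟩
    funext i
    have h := RingHom.map_mulVec f X v i
    rw [hc] at h
    rw [Pi.smul_apply, smul_eq_mul, ← map_mul]
    exact h.symm
  have key : ∀ i j, T i * T j = 0 := by
    intro i j
    apply hF0
    rw [map_mul]
    refine Pool.Agent.T9h82.OR.matC K' ι (fun i j => g (L i j)) (fun i => g (U i))
      (fun i => g (B i)) e h2K' (fun i => ?_) hN (F C) (fun i => F (T i)) ?_ (fun i => ?_)
      (fun i => ?_) ?_ i j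
    · exact fun h => hU i (hinj (h.trans (map_zero g).symm))
    · have h : f (C.trace) = 0 := by rw [hC, map_zero]
      rw [Matrix.trace_fin_two] at h ⊢
      rw [map_add] at h
      exact h
    · rw [← map_mul, hsq, map_zero]
    · have h := congrArg F (hrel i)
      simp only [map_sub, map_mul, map_add, map_sum, hsm] at h
      rw [← hee, map_intCast] at h
      exact h
    · obtain ⟨v, hv0, hv1, hv2⟩ := hv
      refine ⟨fun i => f (v i), fun h0 => hv0 ?_, hEig _ _ hv1, ?_⟩
      · funext i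
        exact f.injective ((congrFun h0 i).trans (map_zero f).symm)
      · have h := hEig _ _ hv2
        simp only [map_sum, hsm] at h
        exact h
  exact Pool.Agent.T9h96.OR.eig K ι _ _ _ ε h2K (fun i => (map_ne_zero g0).2 (hU i)) C T hC hsq
    hrel hv key

end

section

open Pool.Agent.Results.MP_b583a4_nt.OrdinaryScalar
open Pool.Agent.Q202.RT Pool.Agent.Q202.QT
open Pool.Agent.W569.TG (lk)

variable {p : ℕ} [hpF : Fact p.Prime] {m : ℕ} {l : Fin m → ℕ} {S : Finset ℕ}
  {χ : ∀ j : ℕ, (ZMod j)ˣ →* Multiplicative (ZMod p)} {K : Type} [Field K] [CharP K p]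

open Classical in
theorem sum_tameO (hli : Function.Injective l) (hS : ∀ q ∈ Tame p S, q ∈ Set.range l) {V : Type}
    [AddCommGroup V] [Module K V] (T : ℕ → V) (q : ℕ) :
    ∑ j ∈ Tame p S, linking K j q (χ j) • T j =
      ∑ j : Fin m, ZMod.castHom (dvd_refl p) K (lk χ q (l j)) •
        (if l j ∈ Tame p S then T (l j) else 0) := by
  have h1 : ∑ j ∈ Tame p S, linking K j q (χ j) • T j =
      ∑ j ∈ (univ.filter fun i => l i ∈ Tame p S),
        ZMod.castHom (dvd_refl p) K (lk χ q (l j)) • T (l j) := by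
    symm
    refine Finset.sum_bij (fun i _ => l i) (fun i hi => (mem_filter.1 hi).2)
      (fun i _ j _ hij => hli hij) (fun q hq => ?_) (fun i _ => ?_)
    · obtain ⟨i, rfl⟩ := hS q hq
      exact ⟨i, mem_filter.2 ⟨mem_univ _, hq⟩, rfl⟩
    · rw [Pool.Agent.Results.MP_b583a4_nt.MostTuples.linking_lk]
  rw [h1, Finset.sum_filter]
  refine Finset.sum_congr rfl fun j _ => ?_
  split_ifs with hj
  · rfl
  · rw [smul_zero]

theorem noTuple_of_gdO (hli : Function.Injective l) (hS : ∀ q ∈ Tame p S, q ∈ Set.range l)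
    (hG : GdO (fun i j => lk χ (l i) (l j)) (fun i => lv p (l i)) (fun i => lk χ p (l i)))
    {ε : K} (hε : ε = 0 ∨ ε = 1) : NoTuple K p S χ ε := by
  classical
  intro C T hC hsq hrel hv
  have hlv : ∀ i, ZMod.castHom (dvd_refl p) K (lv p (l i)) = (((l i - 1) / p : ℕ) : K) := by
    intro i
    unfold lv
    rw [map_natCast]
  obtain ⟨w, hw0, hw1, hw2⟩ := hG K ε hε C (fun i => if l i ∈ Tame p S then T (l i) else 0) hC
    (fun i => by
      split_ifs with h
      · exact hsq _ h
      · rw [mul_zero]) (fun i => by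
      rw [← sum_tameO (K := K) (χ := χ) hli hS T (l i)]
      beta_reduce
      rw [hlv]
      split_ifs with h
      · exact hrel _ h
      · rw [mul_zero, zero_mul, sub_zero, smul_zero]) (by
      rw [← sum_tameO (K := K) (χ := χ) hli hS T p]
      exact hv)
  refine ⟨w, hw0, hw1, fun q hq => ?_⟩
  obtain ⟨i, rfl⟩ := hS q hq
  have h := hw2 i
  rw [if_pos hq] at h
  exact h

omit [CharP K p] in
theorem noPair_of_noTuple (hN : NoTuple K p S χ 0) : NoPair K p S χ := by
  intro xp yp x y hxy hx hy hcase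
  let T : ℕ → Matrix (Fin 2) (Fin 2) K := fun l => !![0, x l; y l, 0]
  have hsum : ∀ q, ∑ j ∈ Tame p S, linking K j q (χ j) • T j =
      !![0, ∑ j ∈ Tame p S, linking K j q (χ j) * x j;
        ∑ j ∈ Tame p S, linking K j q (χ j) * y j, 0] := by
    intro q
    ext a b
    rw [Matrix.sum_apply]
    fin_cases a <;> fin_cases b <;> simp [T]
  obtain ⟨w, hw0, hw1, hw2⟩ := hN !![0, xp; yp, 0] T (by simp [Matrix.trace_fin_two])
    (fun l hl => by
      have h := hxy l hl
      have h' : y l * x l = 0 := by rw [mul_comm]; exact h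
      ext a b
      fin_cases a <;> fin_cases b <;> simp [T, Matrix.mul_apply, Fin.sum_univ_two, h, h'])
    (fun l hl => by
      have hX := hx l hl
      have hY := hy l hl
      rw [hsum]
      set Sx := ∑ j ∈ Tame p S, linking K j l (χ j) * x j
      set Sy := ∑ j ∈ Tame p S, linking K j l (χ j) * y j
      rw [zero_mul, zero_smul]
      ext a b
      fin_cases a <;> fin_cases b <;> simp [T]
      · linear_combination hY - hX
      · linear_combination hX - hY) (by
      rcases hcase with ⟨h1, h2⟩ | ⟨h1, h2⟩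
      · refine ⟨![0, 1], fun h => one_ne_zero (congrFun h 1), ⟨0, ?_⟩, ⟨0, ?_⟩⟩
        · ext a
          fin_cases a <;> simp [h1]
        · rw [hsum]
          ext a
          fin_cases a <;> simp [h2]
      · refine ⟨![1, 0], fun h => one_ne_zero (congrFun h 0), ⟨0, ?_⟩, ⟨0, ?_⟩⟩
        · ext a
          fin_cases a <;> simp [h1]
        · rw [hsum]
          ext a
          fin_cases a <;> simp [h2])
  have hq : ∀ a b : K, Eigen !![0, a; b, 0] w → a * (w 1 * w 1) = b * (w 0 * w 0) := by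
    rintro a b ⟨c, hc⟩
    have h0 := congrFun hc 0
    have h1 := congrFun hc 1
    simp only [Matrix.mulVec, dotProduct, Fin.sum_univ_two, of_apply, cons_val', cons_val_zero,
      cons_val_one, cons_val_fin_one, zero_mul, zero_add, add_zero, Pi.smul_apply,
      smul_eq_mul] at h0 h1
    linear_combination w 1 * h0 - w 0 * h1
  have hC := hq xp yp hw1
  have hT : ∀ l ∈ Tame p S, x l * (w 1 * w 1) = y l * (w 0 * w 0) := fun l hl => hq _ _ (hw2 l hl)
  have hw : w 0 ≠ 0 ∨ w 1 ≠ 0 := by
    by_contra hcon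
    push Not at hcon
    apply hw0
    funext i
    fin_cases i
    · exact hcon.1
    · exact hcon.2
  rcases hcase with ⟨h1, -⟩ | ⟨h1, -⟩
  · by_cases hall : ∀ l ∈ Tame p S, x l = 0
    · exact Or.inl ⟨h1, hall⟩
    · push Not at hall
      obtain ⟨l, hl, hl0⟩ := hall
      have hy0 : y l = 0 := (mul_eq_zero.1 (hxy l hl)).resolve_left hl0
      have h2 := hT l hl
      rw [hy0, zero_mul] at h2
      have hw1' : w 1 = 0 := mul_self_eq_zero.1 ((mul_eq_zero.1 h2).resolve_left hl0)
      have hw0' : w 0 ≠ 0 := hw.resolve_right (fun h => h hw1')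
      have hww : w 0 * w 0 ≠ 0 := mul_ne_zero hw0' hw0'
      refine Or.inr ⟨?_, fun j hj => ?_⟩
      · rw [hw1', mul_zero, mul_zero] at hC
        exact (mul_eq_zero.1 hC.symm).resolve_right hww
      · have h3 := hT j hj
        rw [hw1', mul_zero, mul_zero] at h3
        exact (mul_eq_zero.1 h3.symm).resolve_right hww
  · by_cases hall : ∀ l ∈ Tame p S, y l = 0
    · exact Or.inr ⟨h1, hall⟩
    · push Not at hall
      obtain ⟨l, hl, hl0⟩ := hall
      have hx0 : x l = 0 := (mul_eq_zero.1 (hxy l hl)).resolve_right hl0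
      have h2 := hT l hl
      rw [hx0, zero_mul] at h2
      have hw0' : w 0 = 0 := mul_self_eq_zero.1 ((mul_eq_zero.1 h2.symm).resolve_left hl0)
      have hw1' : w 1 ≠ 0 := hw.resolve_left (fun h => h hw0')
      have hww : w 1 * w 1 ≠ 0 := mul_ne_zero hw1' hw1'
      refine Or.inl ⟨?_, fun j hj => ?_⟩
      · rw [hw0', mul_zero, mul_zero] at hC
        exact (mul_eq_zero.1 hC).resolve_right hww
      · have h3 := hT j hj
        rw [hw0', mul_zero, mul_zero] at h3
        exact (mul_eq_zero.1 h3).resolve_right hww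

/-- bad data -/
def BadO (k : ℕ) (D : Dat p k) : Prop :=
  (∃ l, (D.1 l).1 = 0) ∨ ¬ GdO (fun l => (D.1 l).2) (fun l => (D.1 l).1) D.2

theorem gdO_colsc {k : ℕ} {L : Fin k → Fin k → ZMod p} {U B : Fin k → ZMod p}
    {c : Fin k → ZMod p} (hc : ∀ j, c j ≠ 0) (h : GdO L U B) :
    GdO (fun l j => c j * L l j) U (fun j => c j * B j) := by
  intro K _ _ ε hε C T hC hsq hrel hv
  set g := ZMod.castHom (dvd_refl p) K with hg
  have hsum : ∀ M : Fin k → ZMod p, ∑ j, g (c j * M j) • T j = ∑ j, g (M j) • (g (c j) • T j) :=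
    fun M => Finset.sum_congr rfl fun j _ => by rw [smul_smul, map_mul, mul_comm]
  obtain ⟨w, hw0, hw1, hw2⟩ := h K ε hε C (fun j => g (c j) • T j) hC (fun j => by
    rw [smul_mul_assoc, mul_smul_comm, hsq, smul_zero, smul_zero]) (fun l => by
    have h2 := hrel l
    rw [hsum] at h2
    rw [mul_smul_comm, smul_mul_assoc, ← smul_sub, h2, smul_comm]) (by
    rw [hsum] at hv
    exact hv)
  refine ⟨w, hw0, hw1, fun i => ?_⟩
  obtain ⟨a, ha⟩ := hw2 i
  have hci : g (c i) ≠ 0 := (map_ne_zero g).2 (hc i)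
  refine ⟨(g (c i))⁻¹ * a, ?_⟩
  rw [Matrix.smul_mulVec] at ha
  rw [mul_smul, ← ha, inv_smul_smul₀ hci]

theorem badO_scInv : Pool.Agent.N829.QD.ScInv (p := p) BadO := by
  have h1 : ∀ (k : ℕ) (c : Fin k → ZMod p), (∀ j, c j ≠ 0) →
      ∀ D : Dat p k, BadO k (colsc c D) → BadO k D := by
    intro k c hc D h
    rcases h with ⟨l, hl⟩ | h
    · exact Or.inl ⟨l, hl⟩
    · exact Or.inr fun h' => h (gdO_colsc hc h')
  intro k c hc D
  refine ⟨h1 k c hc D, fun h => h1 k (fun j => (c j)⁻¹) (fun j => inv_ne_zero (hc j)) _ ?_⟩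
  rw [colsc_inv hc]
  exact h

/-- the point of the data -/
def ptDO (D : Dat p m) : VarO (Fin m) → ZMod p :=
  ptO (fun l => (D.1 l).2) (fun l => (D.1 l).1) D.2

open Classical MvPolynomial in
theorem bad_countO {P : MvPolynomial (VarO (Fin m)) ℤ}
    (hP : MvPolynomial.map (Int.castRingHom (ZMod p)) P ≠ 0) :
    ((Z p m).filter fun D => aeval (ptDO D) P = 0).card * p ≤ P.totalDegree * p ^ (m ^ 2 + m) := by
  have hcard : Fintype.card (VarO (Fin m)) = m ^ 2 + m := by
    rw [card_varO, Fintype.card_fin, pow_two]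
  let e : VarO (Fin m) ≃ Fin (m ^ 2 + m) := Fintype.equivFinOfCardEq hcard
  set Q : MvPolynomial (Fin (m ^ 2 + m)) (ZMod p) :=
    rename e (MvPolynomial.map (Int.castRingHom (ZMod p)) P) with hQ
  have hQ0 : Q ≠ 0 := by
    rw [hQ, Ne, map_eq_zero_iff _ (rename_injective e e.injective)]
    exact hP
  have hdeg : Q.totalDegree ≤ P.totalDegree := by
    refine (totalDegree_rename_le _ _).trans ?_
    unfold totalDegree
    exact Finset.sup_mono (support_map_subset _ _)
  let f : Dat p m → (Fin (m ^ 2 + m) → ZMod p) := fun D i => ptDO D (e.symm i)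
  have hf : ∀ D, eval (f D) Q = aeval (ptDO D) P := by
    intro D
    rw [hQ, eval_rename, eval_map]
    have : f D ∘ e = ptDO D := by
      funext v
      show ptDO D (e.symm (e v)) = _
      rw [Equiv.symm_apply_apply]
    rw [this, aeval_def]
    rfl
  refine le_trans (Nat.mul_le_mul_right _ (Finset.card_le_card_of_injOn f ?_ ?_))
    ((Pool.Agent.T9h32.GT.zeros_le hQ0).trans (Nat.mul_le_mul_right _ hdeg))
  · intro D hD
    obtain ⟨hD1, hD2⟩ := Finset.mem_filter.1 hD
    refine Finset.mem_filter.2 ⟨?_, ?_⟩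
    · rw [Fintype.mem_piFinset]
      exact fun _ => Finset.mem_univ _
    · rw [← hD2, hf]
  · intro D hD D' hD' h
    have z1 := (Finset.mem_filter.1 (Finset.mem_filter.1 hD).1).2
    have z2 := (Finset.mem_filter.1 (Finset.mem_filter.1 hD').1).2
    have e3 : ptDO D = ptDO D' := by
      funext v
      have := congrFun h (e v)
      simp only [f, Equiv.symm_apply_apply] at this
      exact this
    refine Prod.ext (funext fun i => Prod.ext ?_ (funext fun j => ?_)) (funext fun j => ?_)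
    · exact congrFun e3 (Sum.inl (Sum.inr i))
    · by_cases hij : i = j
      · rw [← hij, z1, z2]
      · exact congrFun e3 (Sum.inl (Sum.inl ⟨(i, j), hij⟩))
    · exact congrFun e3 (Sum.inr j)

end

open MvPolynomial Pool.Agent.Q202.QT in
/-- the count of the bad data of `m` primes -/
theorem badO_card (m : ℕ) : ∃ (d c : ℕ), c ≠ 0 ∧ ∀ (p : ℕ) [Fact p.Prime],
    p ≠ 2 → ¬ p ∣ c → open Classical in
    ((Z p m).filter fun D => BadO m D).card * p ≤ d * p ^ (m ^ 2 + m) := by
  classical
  obtain ⟨P, hP0, hP⟩ := exists_poly_gdO (Fin m)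
  obtain ⟨c, hc, hcp⟩ := Pool.Agent.T9h32.GT.exists_coeff hP0
  refine ⟨P.totalDegree, c, hc, ?_⟩
  intro p _ hp2 hpc
  refine le_trans (Nat.mul_le_mul_right _ (card_le_card ?_)) (bad_countO (hcp p hpc))
  intro D hD
  obtain ⟨hD1, hD2⟩ := mem_filter.1 hD
  refine mem_filter.2 ⟨hD1, ?_⟩
  by_contra hne
  obtain ⟨h1, h2⟩ := hP p hp2 _ _ _ hne
  rcases hD2 with ⟨l, hl⟩ | h
  · exact h1 l hl
  · exact h h2

end Pool.Agent.T9h32.OR
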