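import Pool.Agent.T9h32.OR.Spec

/-!
# The relations have no solutions over fields in which the coefficients are independent
-/

set_option autoImplicit false

namespace Pool.Agent.T9h32.OR

open Finset
open Pool.Agent.T9h32.GT (Off Var pt om card_var card_le)

section

variable {L : Type} [Field L] {ι : Type} [Fintype ι] [DecidableEq ι]

theorem card_varO (ι : Type) [Fintype ι] [DecidableEq ι] :
    Fintype.card (VarO ι) = Fintype.card ι * Fintype.card ι + Fintype.card ι := by
  rw [Fintype.card_sum, card_var]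

omit [Fintype ι] [DecidableEq ι] in
theorem two_ne {lam : ι → ι → L} {u b : ι → L} (hX : AlgebraicIndependent ℤ (ptO lam u b)) :
    (2 : L) ≠ 0 := by
  have h := hX.algebraMap_injective
  intro h2
  have h3 : algebraMap ℤ L 2 = algebraMap ℤ L 0 := by
    rw [map_zero, map_ofNat, h2]
  exact absurd (h h3) (by norm_num)

omit [Fintype ι] [DecidableEq ι] in
theorem int_ne {lam : ι → ι → L} {u b : ι → L} (hX : AlgebraicIndependent ℤ (ptO lam u b))
    {e : ℤ} (he : (e : L) = 0) : e = 0 := by
  have h := hX.algebraMap_injective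
  apply h
  rw [map_zero, eq_intCast, he]

omit [Fintype ι] [DecidableEq ι] in
theorem u_ne {lam : ι → ι → L} {u b : ι → L} (hX : AlgebraicIndependent ℤ (ptO lam u b)) (i : ι) :
    u i ≠ 0 := hX.ne_zero (Sum.inl (Sum.inr i))

theorem case_one {lam : ι → ι → L} {u b : ι → L} {e : ℤ} {α β : ι → L} {c d : L} {a : ι}
    (ha : α a = 0) (ha' : β a = 1)
    (hJ : ∀ i, ∃ j1 j2, om α β j1 i ≠ 0 ∧ om α β j2 i ≠ 0 ∧ om α β j1 j2 ≠ 0)
    (h : Rel lam u b e α β c d) (hX : AlgebraicIndependent ℤ (ptO lam u b)) : False := by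
  classical
  obtain ⟨h1, h2, h3⟩ := h
  have hL2 := two_ne hX
  choose j1 j2 g1 g2 g3 using hJ
  have n1 : ∀ i, j1 i ≠ i := fun i h => g1 i (by rw [h]; unfold om; ring)
  have n2 : ∀ i, j2 i ≠ i := fun i h => g2 i (by rw [h]; unfold om; ring)
  have n3 : ∀ i, j1 i ≠ j2 i := fun i h => g3 i (by rw [h]; unfold om; ring)
  set Y1 : Finset L := univ.image u with hY1
  set Y2 : Finset L := (univ \ {a}).image b with hY2
  set Y3 : Finset L := (univ \ {a}).biUnion fun i => {α i, β i} with hY3
  set Y4 : Finset L := univ.biUnion fun i => (univ \ {i, j1 i, j2 i}).image (lam i) with hY4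
  set Y : Finset L := Y1 ∪ (Y2 ∪ (Y3 ∪ (Y4 ∪ {c, d}))) with hY
  set F : Subfield L := Subfield.closure (Y : Set L) with hF
  have hYF : ∀ y ∈ Y, y ∈ F := fun y hy => Subfield.subset_closure (by exact_mod_cast hy)
  have hu : ∀ i, u i ∈ F := fun i => hYF _ (by simp [hY, hY1])
  have hcF : c ∈ F := hYF _ (by simp [hY])
  have hdF : d ∈ F := hYF _ (by simp [hY])
  have h2F : (2 : L) ∈ F := by exact_mod_cast natCast_mem F 2
  have hbrest : ∀ j, j ≠ a → b j ∈ F := by
    intro j hj
    apply hYF
    rw [hY]
    apply Finset.mem_union_right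
    apply Finset.mem_union_left
    rw [hY2]
    exact Finset.mem_image_of_mem _ (by simp [hj])
  have hαβ : ∀ i, α i ∈ F ∧ β i ∈ F := by
    intro i
    by_cases hia : i = a
    · rw [hia, ha, ha']
      exact ⟨F.zero_mem, F.one_mem⟩
    · have hi : i ∈ (univ \ {a} : Finset ι) := by simp [hia]
      have hsub : ({α i, β i} : Finset L) ⊆ Y := by
        refine (Finset.subset_biUnion_of_mem (fun i => ({α i, β i} : Finset L)) hi).trans ?_
        rw [hY]
        exact Finset.subset_union_left.trans
          (Finset.subset_union_right.trans Finset.subset_union_right)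
      exact ⟨hYF _ (hsub (by simp)), hYF _ (hsub (by simp))⟩
  have hom : ∀ i j, om α β i j ∈ F := fun i j =>
    F.sub_mem (F.mul_mem (hαβ i).1 (hαβ j).2) (F.mul_mem (hαβ i).2 (hαβ j).1)
  have hrest : ∀ i j, j ≠ i → j ≠ j1 i → j ≠ j2 i → lam i j ∈ F := by
    intro i j e1 e2 e3
    apply hYF
    rw [hY]
    apply Finset.mem_union_right
    apply Finset.mem_union_right
    apply Finset.mem_union_right
    apply Finset.mem_union_left
    rw [hY4, Finset.mem_biUnion]
    exact ⟨i, mem_univ i, Finset.mem_image.2 ⟨j, by simp [e1, e2, e3], rfl⟩⟩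
  have key : ∀ (γ R : ι → L), (∀ i, γ i ∈ F) → (∀ i, R i ∈ F) →
      (∀ i, 2 * ∑ j, lam i j * om α β j i * γ j = R i) → ∀ i,
      lam i (j1 i) * om α β (j1 i) i * γ (j1 i) + lam i (j2 i) * om α β (j2 i) i * γ (j2 i) ∈ F := by
    intro γ R hγ hR h i
    have hi := h i
    rw [mul_comm, ← eq_div_iff hL2] at hi
    rw [← Finset.sum_sdiff (Finset.subset_univ ({i, j1 i, j2 i} : Finset ι)),
      Finset.sum_insert (by simp [(n1 i).symm, (n2 i).symm]), Finset.sum_pair (n3 i)] at hi
    have h0 : om α β i i = 0 := by unfold om; ring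
    rw [h0, mul_zero, zero_mul, zero_add] at hi
    rw [← eq_sub_iff_add_eq'] at hi
    rw [hi]
    refine F.sub_mem (F.div_mem (hR i) h2F) (F.sum_mem fun j hj => ?_)
    simp only [mem_sdiff, mem_univ, true_and, mem_insert, mem_singleton, not_or] at hj
    exact F.mul_mem (F.mul_mem (hrest i j hj.1 hj.2.1 hj.2.2) (hom j i)) (hγ j)
  have kα := key α _ (fun i => (hαβ i).1) (fun i => F.mul_mem (hu i) (F.add_mem
    (F.mul_mem (F.sub_mem hcF (F.intCast_mem e)) (hαβ i).1) (F.mul_mem hdF (hαβ i).2))) h1
  have kβ := key β _ (fun i => (hαβ i).2) (fun i => F.neg_mem (F.mul_mem (hu i)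
    (F.mul_mem (F.add_mem hcF (F.intCast_mem e)) (hαβ i).2))) h2
  have s1 : ∀ i, lam i (j1 i) ∈ F := by
    intro i
    have hne : om α β (j1 i) i * om α β (j1 i) (j2 i) ≠ 0 := mul_ne_zero (g1 i) (g3 i)
    have e : lam i (j1 i) = ((lam i (j1 i) * om α β (j1 i) i * α (j1 i) +
        lam i (j2 i) * om α β (j2 i) i * α (j2 i)) * β (j2 i) -
        (lam i (j1 i) * om α β (j1 i) i * β (j1 i) +
        lam i (j2 i) * om α β (j2 i) i * β (j2 i)) * α (j2 i)) /
        (om α β (j1 i) i * om α β (j1 i) (j2 i)) := by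
      rw [eq_div_iff hne]
      unfold om
      ring
    rw [e]
    exact F.div_mem (F.sub_mem (F.mul_mem (kα i) (hαβ _).2) (F.mul_mem (kβ i) (hαβ _).1))
      (F.mul_mem (hom _ _) (hom _ _))
  have s2 : ∀ i, lam i (j2 i) ∈ F := by
    intro i
    have hne : om α β (j2 i) i * om α β (j1 i) (j2 i) ≠ 0 := mul_ne_zero (g2 i) (g3 i)
    have e : lam i (j2 i) = ((lam i (j1 i) * om α β (j1 i) i * β (j1 i) +
        lam i (j2 i) * om α β (j2 i) i * β (j2 i)) * α (j1 i) -
        (lam i (j1 i) * om α β (j1 i) i * α (j1 i) +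
        lam i (j2 i) * om α β (j2 i) i * α (j2 i)) * β (j1 i)) /
        (om α β (j2 i) i * om α β (j1 i) (j2 i)) := by
      rw [eq_div_iff hne]
      unfold om
      ring
    rw [e]
    exact F.div_mem (F.sub_mem (F.mul_mem (kβ i) (hαβ _).1) (F.mul_mem (kα i) (hαβ _).2))
      (F.mul_mem (hom _ _) (hom _ _))
  have s3 : b a ∈ F := by
    rw [← Finset.sum_sdiff (Finset.subset_univ ({a} : Finset ι)), Finset.sum_singleton, ha',
      mul_one, mul_one] at h3
    rw [eq_neg_of_add_eq_zero_right h3]
    refine F.neg_mem (F.sum_mem fun j hj => ?_)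
    simp only [mem_sdiff, mem_univ, true_and, mem_singleton] at hj
    exact F.mul_mem (hbrest j hj) (F.mul_mem (hαβ j).2 (hαβ j).2)
  have hall : ∀ v, ptO lam u b v ∈ F := by
    rintro ((⟨⟨i, j⟩, hij⟩ | i) | i)
    · show lam i j ∈ F
      have hij' : j ≠ i := fun h => hij h.symm
      by_cases e1 : j = j1 i
      · rw [e1]; exact s1 i
      · by_cases e2 : j = j2 i
        · rw [e2]; exact s2 i
        · exact hrest i j hij' e1 e2
    · exact hu i
    · show b i ∈ F
      by_cases hi : i = a
      · rw [hi]; exact s3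
      · exact hbrest i hi
  have hcard := card_le hX Y hall
  rw [card_varO] at hcard
  set m := Fintype.card ι with hm
  have c1 : Y1.card ≤ m := Finset.card_image_le.trans (le_of_eq Finset.card_univ)
  have ca : (univ \ {a} : Finset ι).card = m - 1 := by
    rw [Finset.card_sdiff_of_subset (Finset.subset_univ _), Finset.card_singleton,
      Finset.card_univ]
  have c2 : Y2.card ≤ m - 1 := Finset.card_image_le.trans (le_of_eq ca)
  have c3 : Y3.card ≤ (m - 1) * 2 := by
    rw [hY3, ← ca]
    exact Finset.card_biUnion_le_card_mul _ _ _ fun i _ => Finset.card_le_two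
  have c4 : Y4.card ≤ m * (m - 3) := by
    have := Finset.card_biUnion_le_card_mul (univ : Finset ι)
      (fun i => (univ \ {i, j1 i, j2 i}).image (lam i)) (m - 3) fun i _ => by
        refine Finset.card_image_le.trans (le_of_eq ?_)
        rw [Finset.card_sdiff_of_subset (Finset.subset_univ _), Finset.card_univ,
          Finset.card_eq_three.2 ⟨i, j1 i, j2 i, (n1 i).symm, (n2 i).symm, n3 i, rfl⟩]
    rwa [Finset.card_univ] at this
  have h3m : 3 ≤ m := by
    rw [hm, ← Finset.card_univ, ← Finset.card_eq_three.2 ⟨a, j1 a, j2 a, (n1 a).symm, (n2 a).symm,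
      n3 a, rfl⟩]
    exact Finset.card_le_card (Finset.subset_univ _)
  have cY : Y.card ≤ m + ((m - 1) + ((m - 1) * 2 + (m * (m - 3) + 2))) := by
    rw [hY]
    refine (Finset.card_union_le _ _).trans (Nat.add_le_add c1 ?_)
    refine (Finset.card_union_le _ _).trans (Nat.add_le_add c2 ?_)
    refine (Finset.card_union_le _ _).trans (Nat.add_le_add c3 ?_)
    exact (Finset.card_union_le _ _).trans (Nat.add_le_add c4 Finset.card_le_two)
  obtain ⟨k, hk⟩ := Nat.exists_eq_add_of_le h3m
  rw [hk] at cY hcard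
  have e1 : 3 + k - 1 = k + 2 := by omega
  have e2 : 3 + k - 3 = k := by omega
  rw [e1, e2] at cY
  have := hcard.trans cY
  nlinarith

theorem case_two {lam : ι → ι → L} {u b : ι → L} {e : ℤ} {α β : ι → L} {c d : L} {a b0 : ι}
    (ha : α a = 0) (ha' : β a = 1) (hb : α b0 ≠ 0) (hw : ∀ i, α i ≠ 0 ∨ β i ≠ 0)
    (hc : ∀ i, α i = 0 ∨ om α β i b0 = 0)
    (h : Rel lam u b e α β c d) (hX : AlgebraicIndependent ℤ (ptO lam u b)) : False := by
  classical
  obtain ⟨h1, h2, h3⟩ := h
  have hL2 := two_ne hX
  have nab : a ≠ b0 := fun h => hb (h ▸ ha)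
  set ρ : L := β b0 / α b0 with hρ
  have hB : ∀ i, α i ≠ 0 → β i = ρ * α i := by
    intro i hi
    have h0 := (hc i).resolve_left hi
    unfold om at h0
    rw [hρ, div_mul_eq_mul_div, eq_div_iff hb]
    linear_combination -h0
  have hαβ : ∀ i, α i * β i = ρ * (α i * α i) := by
    intro i
    by_cases hi : α i = 0
    · rw [hi]; ring
    · rw [hB i hi]; ring
  have hρb : β b0 = ρ * α b0 := hB b0 hb
  -- `e = 0`
  have q1 : 2 * ∑ j, lam a j * (α j * α j) = u a * d := by
    have h := h1 a
    rw [ha, ha', mul_zero, zero_add, mul_one] at h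
    rw [← h]
    congr 1
    refine Finset.sum_congr rfl fun j _ => ?_
    unfold om
    rw [ha, ha']
    ring
  have q2 : ρ * (2 * ∑ j, lam a j * (α j * α j)) = -(u a * (c + e)) := by
    have h := h2 a
    rw [ha', mul_one] at h
    rw [← h, ← mul_assoc, mul_comm ρ 2, mul_assoc, Finset.mul_sum]
    congr 1
    refine Finset.sum_congr rfl fun j _ => ?_
    unfold om
    rw [ha, ha']
    linear_combination (-lam a j) * hαβ j
  have q3 : ρ * d = -(c + e) := by
    rw [q1] at q2
    have : u a * (ρ * d + (c + e)) = 0 := by linear_combination q2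
    exact eq_neg_of_add_eq_zero_left ((mul_eq_zero.1 this).resolve_left (u_ne hX a))
  have q4 : c - e + d * ρ = 0 := by
    have h := h1 b0
    have h0 : ∑ j, lam b0 j * om α β j b0 * α j = 0 := by
      refine Finset.sum_eq_zero fun j _ => ?_
      rcases hc j with hj | hj
      · rw [hj, mul_zero]
      · rw [hj, mul_zero, zero_mul]
    rw [h0, mul_zero, hρb] at h
    have : u b0 * (α b0 * (c - e + d * ρ)) = 0 := by linear_combination -h
    exact (mul_eq_zero.1 ((mul_eq_zero.1 this).resolve_left (u_ne hX b0))).resolve_left hb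
  have he : (e : L) = 0 := by
    have : (2 : L) * e = 0 := by linear_combination q3 - q4
    exact (mul_eq_zero.1 this).resolve_left hL2
  rw [he, add_zero] at q3
  have hcρ : c = -(ρ * d) := by linear_combination q3
  -- squares
  set A : ι → L := fun j => if α j = 0 then β j * β j else 0 with hA
  set B : ι → L := fun j => α j * α j / (α b0 * α b0) with hBdef
  have hbb : α b0 * α b0 ≠ 0 := mul_ne_zero hb hb
  set D : L := d / (α b0 * α b0) with hD
  set G : L := ρ * ρ * (α b0 * α b0) with hG
  have hαB : ∀ j, α j * α j = (α b0 * α b0) * B j := by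
    intro j
    rw [hBdef]
    simp only
    rw [mul_div_cancel₀ _ hbb]
  have hdD : d = (α b0 * α b0) * D := by
    rw [hD, mul_div_cancel₀ _ hbb]
  have hββ : ∀ j, β j * β j = A j + G * B j := by
    intro j
    by_cases hj : α j = 0
    · have : B j = 0 := by rw [hBdef]; simp [hj]
      rw [this, mul_zero, add_zero, hA]
      simp [hj]
    · have : A j = 0 := by rw [hA]; simp [hj]
      rw [this, zero_add, hG, hB j hj]
      linear_combination (ρ * ρ) * hαB j
  have F1 : ∀ i, α i = 0 → 2 * ∑ j, lam i j * B j = u i * D := by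
    intro i hi
    have hβ := (hw i).resolve_left (fun h => h hi)
    have h := h1 i
    rw [hi, mul_zero, zero_add] at h
    have e1 : 2 * ∑ j, lam i j * om α β j i * α j =
        (β i * (α b0 * α b0)) * (2 * ∑ j, lam i j * B j) := by
      rw [Finset.mul_sum, Finset.mul_sum, Finset.mul_sum]
      refine Finset.sum_congr rfl fun j _ => ?_
      unfold om
      rw [hi]
      linear_combination (2 * lam i j * β i) * hαB j
    rw [e1, hdD] at h
    have : (β i * (α b0 * α b0)) * (2 * ∑ j, lam i j * B j - u i * D) = 0 := by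
      linear_combination h
    exact sub_eq_zero.1 ((mul_eq_zero.1 this).resolve_left (mul_ne_zero hβ hbb))
  have F2 : ∀ i, α i ≠ 0 → 2 * ∑ j, lam i j * A j = -(u i * (G * D)) := by
    intro i hi
    have h := h2 i
    rw [he, add_zero] at h
    have e1 : 2 * ∑ j, lam i j * om α β j i * β j = (-α i) * (2 * ∑ j, lam i j * A j) := by
      rw [Finset.mul_sum, Finset.mul_sum, Finset.mul_sum]
      refine Finset.sum_congr rfl fun j _ => ?_
      rw [hA]
      simp only
      unfold om
      split_ifs with hj
      · rw [hj]; ring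
      · rw [hB j hj, hB i hi]; ring
    rw [e1, hcρ, hB i hi, hdD] at h
    have : α i * (2 * ∑ j, lam i j * A j + u i * (G * D)) = 0 := by
      rw [hG]
      linear_combination -h
    exact eq_neg_of_add_eq_zero_left ((mul_eq_zero.1 this).resolve_left hi)
  have F3 : ∑ j, b j * (A j + G * B j) = 0 := by
    rw [← h3]
    exact Finset.sum_congr rfl fun j _ => by rw [hββ]
  set π : ι → ι := fun i => if α i = 0 then b0 else a with hπ
  have nπ : ∀ i, π i ≠ i := by
    intro i h
    rw [hπ] at h
    simp only at h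
    split_ifs at h with h0
    · rw [← h] at h0
      exact hb h0
    · rw [← h] at h0
      exact h0 ha
  have hAa : A a = 1 := by rw [hA]; simp [ha, ha']
  have hBa : B a = 0 := by rw [hBdef]; simp [ha]
  have hBb : B b0 = 1 := by
    rw [hBdef]
    exact div_self hbb
  have hAb : A b0 = 0 := by rw [hA]; simp [hb]
  have hAB : ∀ j, (α j = 0 ∧ B j = 0) ∨ (α j ≠ 0 ∧ A j = 0) := by
    intro j
    by_cases hj : α j = 0
    · left
      refine ⟨hj, ?_⟩
      rw [hBdef]
      simp [hj]
    · right
      refine ⟨hj, ?_⟩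
      rw [hA]
      simp [hj]
  set Y1 : Finset L := univ.image u with hY1
  set Y2 : Finset L := (univ \ {a}).image b with hY2
  set Y3 : Finset L := (univ \ {a, b0}).image fun i => A i + B i with hY3
  set Y4 : Finset L := univ.biUnion fun i => (univ \ {i, π i}).image (lam i) with hY4
  set Y : Finset L := Y1 ∪ (Y2 ∪ (Y3 ∪ (Y4 ∪ {D, G}))) with hY
  set F : Subfield L := Subfield.closure (Y : Set L) with hF
  have hYF : ∀ y ∈ Y, y ∈ F := fun y hy => Subfield.subset_closure (by exact_mod_cast hy)
  have hu : ∀ i, u i ∈ F := fun i => hYF _ (by simp [hY, hY1])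
  have hDF : D ∈ F := hYF _ (by simp [hY])
  have hGF : G ∈ F := hYF _ (by simp [hY])
  have h2F : (2 : L) ∈ F := by exact_mod_cast natCast_mem F 2
  have hbrest : ∀ j, j ≠ a → b j ∈ F := by
    intro j hj
    apply hYF
    rw [hY]
    apply Finset.mem_union_right
    apply Finset.mem_union_left
    rw [hY2]
    exact Finset.mem_image_of_mem _ (by simp [hj])
  have hABF : ∀ i, A i ∈ F ∧ B i ∈ F := by
    intro i
    by_cases hia : i = a
    · rw [hia, hAa, hBa]
      exact ⟨F.one_mem, F.zero_mem⟩
    · by_cases hib : i = b0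
      · rw [hib, hAb, hBb]
        exact ⟨F.zero_mem, F.one_mem⟩
      · have hi : i ∈ (univ \ {a, b0} : Finset ι) := by simp [hia, hib]
        have hs : A i + B i ∈ F := by
          apply hYF
          rw [hY]
          apply Finset.mem_union_right
          apply Finset.mem_union_right
          apply Finset.mem_union_left
          rw [hY3]
          exact Finset.mem_image_of_mem _ hi
        rcases hAB i with ⟨-, h⟩ | ⟨-, h⟩
        · rw [h, add_zero] at hs
          rw [h]
          exact ⟨hs, F.zero_mem⟩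
        · rw [h, zero_add] at hs
          rw [h]
          exact ⟨F.zero_mem, hs⟩
  have hrest : ∀ i j, j ≠ i → j ≠ π i → lam i j ∈ F := by
    intro i j e1 e2
    apply hYF
    rw [hY]
    apply Finset.mem_union_right
    apply Finset.mem_union_right
    apply Finset.mem_union_right
    apply Finset.mem_union_left
    rw [hY4, Finset.mem_biUnion]
    exact ⟨i, mem_univ i, Finset.mem_image.2 ⟨j, by simp [e1, e2], rfl⟩⟩
  have s1 : ∀ i, lam i (π i) ∈ F := by
    intro i
    obtain ⟨V, R, hVF, hRF, hVi, hVπ, hsum⟩ : ∃ (V : ι → L) (R : L), (∀ j, V j ∈ F) ∧ R ∈ F ∧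
        V i = 0 ∧ V (π i) = 1 ∧ 2 * ∑ j, lam i j * V j = R := by
      by_cases hi : α i = 0
      · refine ⟨B, u i * D, fun j => (hABF j).2, F.mul_mem (hu i) hDF, ?_, ?_, F1 i hi⟩
        · rcases hAB i with ⟨-, h⟩ | ⟨h, -⟩
          · exact h
          · exact absurd hi h
        · rw [hπ]
          simp only [if_pos hi]
          exact hBb
      · refine ⟨A, -(u i * (G * D)), fun j => (hABF j).1,
          F.neg_mem (F.mul_mem (hu i) (F.mul_mem hGF hDF)), ?_, ?_, F2 i hi⟩
        · rcases hAB i with ⟨h, -⟩ | ⟨-, h⟩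
          · exact absurd h hi
          · exact h
        · rw [hπ]
          simp only [if_neg hi]
          exact hAa
    rw [mul_comm, ← eq_div_iff hL2] at hsum
    rw [← Finset.sum_sdiff (Finset.subset_univ ({i, π i} : Finset ι)),
      Finset.sum_pair (nπ i).symm, hVi, hVπ, mul_zero, zero_add, mul_one] at hsum
    rw [← eq_sub_iff_add_eq'] at hsum
    rw [hsum]
    refine F.sub_mem (F.div_mem hRF h2F) (F.sum_mem fun j hj => ?_)
    simp only [mem_sdiff, mem_univ, true_and, mem_insert, mem_singleton, not_or] at hj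
    exact F.mul_mem (hrest i j hj.1 hj.2) (hVF j)
  have s3 : b a ∈ F := by
    rw [← Finset.sum_sdiff (Finset.subset_univ ({a} : Finset ι)), Finset.sum_singleton, hAa, hBa,
      mul_zero, add_zero, mul_one] at F3
    rw [eq_neg_of_add_eq_zero_right F3]
    refine F.neg_mem (F.sum_mem fun j hj => ?_)
    simp only [mem_sdiff, mem_univ, true_and, mem_singleton] at hj
    exact F.mul_mem (hbrest j hj) (F.add_mem (hABF j).1 (F.mul_mem hGF (hABF j).2))
  have hall : ∀ v, ptO lam u b v ∈ F := by
    rintro ((⟨⟨i, j⟩, hij⟩ | i) | i)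
    · show lam i j ∈ F
      have hij' : j ≠ i := fun h => hij h.symm
      by_cases e1 : j = π i
      · rw [e1]; exact s1 i
      · exact hrest i j hij' e1
    · exact hu i
    · show b i ∈ F
      by_cases hi : i = a
      · rw [hi]; exact s3
      · exact hbrest i hi
  have hcard := card_le hX Y hall
  rw [card_varO] at hcard
  set m := Fintype.card ι with hm
  have c1 : Y1.card ≤ m := Finset.card_image_le.trans (le_of_eq Finset.card_univ)
  have c2 : Y2.card ≤ m - 1 := by
    refine Finset.card_image_le.trans (le_of_eq ?_)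
    rw [Finset.card_sdiff_of_subset (Finset.subset_univ _), Finset.card_singleton,
      Finset.card_univ]
  have c3 : Y3.card ≤ m - 2 := by
    refine Finset.card_image_le.trans (le_of_eq ?_)
    rw [Finset.card_sdiff_of_subset (Finset.subset_univ _), Finset.card_pair nab, Finset.card_univ]
  have c4 : Y4.card ≤ m * (m - 2) := by
    have := Finset.card_biUnion_le_card_mul (univ : Finset ι)
      (fun i => (univ \ {i, π i}).image (lam i)) (m - 2) fun i _ => by
        refine Finset.card_image_le.trans (le_of_eq ?_)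
        rw [Finset.card_sdiff_of_subset (Finset.subset_univ _), Finset.card_univ,
          Finset.card_pair (nπ i).symm]
    rwa [Finset.card_univ] at this
  have h2m : 2 ≤ m := by
    rw [hm, ← Finset.card_univ, ← Finset.card_pair nab]
    exact Finset.card_le_card (Finset.subset_univ _)
  have cY : Y.card ≤ m + ((m - 1) + ((m - 2) + (m * (m - 2) + 2))) := by
    rw [hY]
    refine (Finset.card_union_le _ _).trans (Nat.add_le_add c1 ?_)
    refine (Finset.card_union_le _ _).trans (Nat.add_le_add c2 ?_)
    refine (Finset.card_union_le _ _).trans (Nat.add_le_add c3 ?_)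
    exact (Finset.card_union_le _ _).trans (Nat.add_le_add c4 Finset.card_le_two)
  obtain ⟨k, hk⟩ := Nat.exists_eq_add_of_le h2m
  rw [hk] at cY hcard
  have e1 : 2 + k - 2 = k := by omega
  have e2 : 2 + k - 1 = k + 1 := by omega
  rw [e1, e2] at cY
  have := hcard.trans cY
  nlinarith

omit [Fintype ι] [DecidableEq ι] in
theorem om_par {α β : ι → L} {i j k : ι} (hi : α i ≠ 0 ∨ β i ≠ 0) (hj : om α β j i = 0)
    (hk : om α β k i = 0) : om α β j k = 0 := by
  unfold om at *
  rcases hi with hi | hi
  · have : α i * (α j * β k - β j * α k) = 0 := by linear_combination α k * hj - α j * hk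
    exact (mul_eq_zero.1 this).resolve_left hi
  · have : β i * (α j * β k - β j * α k) = 0 := by linear_combination β k * hj - β j * hk
    exact (mul_eq_zero.1 this).resolve_left hi

/-- all vectors nonzero -/
theorem generic_ne {lam : ι → ι → L} {u b : ι → L} {e : ℤ} {α β : ι → L} {c d : L}
    (hw : ∀ i, α i ≠ 0 ∨ β i ≠ 0)
    (h : Rel lam u b e α β c d) (hX : AlgebraicIndependent ℤ (ptO lam u b)) (x y : ι) :
    om α β x y = 0 := by
  by_contra hxy
  obtain ⟨a, b0, ha, hab⟩ : ∃ a b0, β a ≠ 0 ∧ om α β b0 a ≠ 0 := by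
    by_cases hx : β x = 0
    · refine ⟨y, x, ?_, hxy⟩
      intro hy
      apply hxy
      unfold om
      rw [hx, hy]
      ring
    · refine ⟨x, y, hx, ?_⟩
      intro h0
      apply hxy
      unfold om at *
      linear_combination -h0
  set α' : ι → L := fun i => om α β i a with hα'
  set β' : ι → L := fun i => β i / β a with hβ'
  have eo : ∀ i j, om α' β' i j = om α β i j := by
    intro i j
    unfold om
    rw [hα', hβ']
    simp only
    unfold om
    field_simp
    ring
  have hR : Rel lam u b e α' β' c (β a * β a * d + 2 * c * α a * β a) := by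
    obtain ⟨h1, h2, h3⟩ := h
    refine ⟨fun i => ?_, fun i => ?_, ?_⟩
    · have e1 : 2 * ∑ j, lam i j * om α' β' j i * α' j =
          β a * (2 * ∑ j, lam i j * om α β j i * α j) -
            α a * (2 * ∑ j, lam i j * om α β j i * β j) := by
        rw [Finset.mul_sum, Finset.mul_sum, Finset.mul_sum, Finset.mul_sum, Finset.mul_sum,
          ← Finset.sum_sub_distrib]
        refine Finset.sum_congr rfl fun j _ => ?_
        rw [eo, hα']
        simp only
        have : om α β j a = α j * β a - β j * α a := rfl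
        rw [this]
        ring
      rw [e1, h1, h2, hα', hβ']
      simp only
      unfold om
      field_simp
      ring
    · have e1 : 2 * ∑ j, lam i j * om α' β' j i * β' j =
          (2 * ∑ j, lam i j * om α β j i * β j) / β a := by
        rw [Finset.mul_sum, Finset.mul_sum, Finset.sum_div]
        refine Finset.sum_congr rfl fun j _ => ?_
        rw [eo, hβ']
        simp only
        ring
      rw [e1, h2, hβ']
      simp only
      ring
    · have e1 : ∑ j, b j * (β' j * β' j) = (∑ j, b j * (β j * β j)) / (β a * β a) := by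
        rw [Finset.sum_div]
        refine Finset.sum_congr rfl fun j _ => ?_
        rw [hβ']
        simp only
        rw [div_mul_div_comm]
        ring
      rw [e1, h3, zero_div]
  have haa : α' a = 0 := by
    rw [hα']
    simp only
    unfold om
    ring
  have haa' : β' a = 1 := by
    rw [hβ']
    exact div_self ha
  have hb' : α' b0 ≠ 0 := hab
  have hw' : ∀ i, α' i ≠ 0 ∨ β' i ≠ 0 := by
    intro i
    by_contra hcon
    push Not at hcon
    have h1 : β i = 0 := by
      have := hcon.2
      rw [hβ'] at this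
      simp only at this
      exact (div_eq_zero_iff.1 this).resolve_right ha
    have h2 : α i * β a - β i * α a = 0 := hcon.1
    rw [h1, zero_mul, sub_zero] at h2
    rcases hw i with h | h
    · exact h ((mul_eq_zero.1 h2).resolve_right ha)
    · exact h h1
  by_cases hc : ∃ c0, α' c0 ≠ 0 ∧ om α' β' c0 b0 ≠ 0
  · obtain ⟨c0, hc1, hc2⟩ := hc
    have oa : ∀ i, om α' β' i a = α' i := by
      intro i
      unfold om
      rw [haa, haa']
      ring
    have sw : ∀ i j, om α' β' i j ≠ 0 → om α' β' j i ≠ 0 := by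
      intro i j hij h0
      apply hij
      unfold om at *
      linear_combination -h0
    have nab : om α' β' b0 a ≠ 0 := by rw [oa]; exact hb'
    have nca : om α' β' c0 a ≠ 0 := by rw [oa]; exact hc1
    refine case_one haa haa' (fun i => ?_) hR hX
    by_cases h1 : om α' β' a i = 0
    · refine ⟨b0, c0, fun h2 => nab (om_par (hw' i) h2 h1), fun h2 => nca (om_par (hw' i) h2 h1),
        sw _ _ hc2⟩
    · by_cases h2 : om α' β' b0 i = 0
      · exact ⟨a, c0, h1, fun h3 => hc2 (om_par (hw' i) h3 h2), sw _ _ nca⟩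
      · exact ⟨a, b0, h1, h2, sw _ _ nab⟩
  · push Not at hc
    exact case_two haa haa' hb' hw' (fun i => by
      by_cases h0 : α' i = 0
      · exact Or.inl h0
      · exact Or.inr (hc i h0)) hR hX

/-- **No solutions over the generic point.** -/
theorem generic {lam : ι → ι → L} {u b : ι → L} {e : ℤ} {α β : ι → L} {c d : L}
    (h : Rel lam u b e α β c d) (hX : AlgebraicIndependent ℤ (ptO lam u b)) (x y : ι) :
    om α β x y = 0 := by
  classical
  by_cases ha : α x ≠ 0 ∨ β x ≠ 0
  swap
  · push Not at ha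
    unfold om
    rw [ha.1, ha.2, zero_mul, zero_mul, sub_zero]
  by_cases hb : α y ≠ 0 ∨ β y ≠ 0
  swap
  · push Not at hb
    unfold om
    rw [hb.1, hb.2, mul_zero, mul_zero, sub_zero]
  obtain ⟨h1, h2, h3⟩ := h
  let κ : Type := {i : ι // α i ≠ 0 ∨ β i ≠ 0}
  have hsub : ∀ f : ι → L, (∀ j, ¬ (α j ≠ 0 ∨ β j ≠ 0) → f j = 0) →
      ∑ j : κ, f j.1 = ∑ j, f j := by
    intro f hf
    rw [← Finset.sum_subtype (univ.filter fun j => α j ≠ 0 ∨ β j ≠ 0) (fun x => by simp) f]
    rw [Finset.sum_filter_of_ne]
    intro j _ hne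
    by_contra hcon
    exact hne (hf j hcon)
  have hXκ : AlgebraicIndependent ℤ (ptO (fun i j : κ => lam i.1 j.1) (fun i : κ => u i.1)
      (fun i : κ => b i.1)) := by
    let f : VarO κ → VarO ι := Sum.map (Sum.map
      (fun x => ⟨(x.1.1.1, x.1.2.1), fun h => x.2 (Subtype.ext h)⟩) (fun i => i.1)) (fun i => i.1)
    have hf : Function.Injective f := by
      refine Sum.map_injective.2 ⟨Sum.map_injective.2 ⟨?_, Subtype.val_injective⟩,
        Subtype.val_injective⟩
      rintro ⟨⟨i, j⟩, h⟩ ⟨⟨i', j'⟩, h'⟩ he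
      simp only [Subtype.mk.injEq, Prod.mk.injEq] at he
      simp only [Subtype.mk.injEq, Prod.mk.injEq]
      exact ⟨Subtype.ext he.1, Subtype.ext he.2⟩
    have := hX.comp f hf
    convert this using 1
    funext v
    rcases v with (v | v) | v <;> rfl
  refine generic_ne (ι := κ) (lam := fun i j => lam i.1 j.1) (u := fun i => u i.1)
    (b := fun i => b i.1) (e := e) (α := fun i => α i.1) (β := fun i => β i.1) (c := c) (d := d)
    (fun i => i.2) ⟨fun i => ?_, fun i => ?_, ?_⟩ hXκ ⟨x, ha⟩ ⟨y, hb⟩
  · rw [← h1 i.1]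
    congr 1
    exact hsub (fun j => lam i.1 j * om α β j i.1 * α j) fun j hj => by
      push Not at hj
      rw [hj.1, mul_zero]
  · rw [← h2 i.1]
    congr 1
    exact hsub (fun j => lam i.1 j * om α β j i.1 * β j) fun j hj => by
      push Not at hj
      rw [hj.2, mul_zero]
  · refine (hsub (fun j => b j * (β j * β j)) fun j hj => ?_).trans h3
    push Not at hj
    rw [hj.2, mul_zero, mul_zero]

theorem stGeneric : StGeneric := fun _ _ _ _ _ _ _ _ _ _ _ _ _ h hX x y => generic h hX x y

end

end Pool.Agent.T9h32.OR
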