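import Pool.Agent.T9h32.GT.Gen

/-!
# Ordinary representations: the relations
-/

set_option autoImplicit false

namespace Pool.Agent.T9h32.OR

open Finset Matrix
open Pool.Agent.T9h32.GT (Off Var pt om)

/-- the variables: the numbers `λ i j`, `i ≠ j`, `u i` and `b i` -/
abbrev VarO (ι : Type) : Type := Var ι ⊕ ι

/-- the point of the affine space with the variables `VarO ι` -/
def ptO {L ι : Type} (lam : ι → ι → L) (u b : ι → L) : VarO ι → L :=
  Sum.elim (pt lam u) b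

/-- The relations for the vectors `(α i, β i)` and the matrix `C = (c, d; 0, -c) / 2`. -/
def Rel {L ι : Type} [CommRing L] [Fintype ι] (lam : ι → ι → L) (u b : ι → L) (e : ℤ)
    (α β : ι → L) (c d : L) : Prop :=
  (∀ i, 2 * ∑ j, lam i j * om α β j i * α j = u i * ((c - (e : L)) * α i + d * β i)) ∧
  (∀ i, 2 * ∑ j, lam i j * om α β j i * β j = -(u i * ((c + (e : L)) * β i))) ∧
  ∑ j, b j * (β j * β j) = 0

/-- no solutions over the generic point -/
def StGeneric : Prop := ∀ (L : Type) [Field L] (ι : Type) [Fintype ι] [DecidableEq ι]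
  (lam : ι → ι → L) (u b : ι → L) (e : ℤ) (α β : ι → L) (c d : L),
  Rel lam u b e α β c d → AlgebraicIndependent ℤ (ptO lam u b) → ∀ i j, om α β i j = 0

/-- no solutions outside of a hypersurface -/
def StPoly : Prop := ∀ (ι : Type) [Fintype ι] [DecidableEq ι],
  ∃ P : MvPolynomial (VarO ι) ℤ, P ≠ 0 ∧ ∀ (k : Type) [Field k] (lam : ι → ι → k) (u b : ι → k),
    MvPolynomial.aeval (ptO lam u b) P ≠ 0 → ∀ e : ℤ, e = 0 ∨ e = 1 →
      ∀ (α β : ι → k) (c d : k), Rel lam u b e α β c d → ∀ i j, om α β i j = 0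

/-- `v` is an eigenvector of `M` (or zero). -/
def Eig {K : Type} [Field K] (M : Matrix (Fin 2) (Fin 2) K) (v : Fin 2 → K) : Prop :=
  ∃ c : K, M *ᵥ v = c • v

/-- no tuple of matrices -/
def NoTup {K ι : Type} [Field K] [Fintype ι] (lam : ι → ι → K) (u b : ι → K) (ε : K) : Prop :=
  ∀ (C : Matrix (Fin 2) (Fin 2) K) (T : ι → Matrix (Fin 2) (Fin 2) K),
    C.trace = 0 → (∀ i, T i * T i = 0) →
    (∀ i, (u i • C + ∑ j, lam i j • T j) * T i - T i * (u i • C + ∑ j, lam i j • T j) =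
      (ε * u i) • T i) →
    (∃ v : Fin 2 → K, v ≠ 0 ∧ Eig C v ∧ Eig (∑ j, b j • T j) v) →
    ∃ w : Fin 2 → K, w ≠ 0 ∧ Eig C w ∧ ∀ i, Eig (T i) w

/-- from vectors to matrices, over an algebraically closed field -/
def StMatC : Prop := ∀ (k : Type) [Field k] [IsAlgClosed k] (ι : Type) [Fintype ι] [DecidableEq ι]
  (lam : ι → ι → k) (u b : ι → k) (e : ℤ), (2 : k) ≠ 0 → (∀ i, u i ≠ 0) →
  (∀ (α β : ι → k) (c d : k), Rel lam u b e α β c d → ∀ i j, om α β i j = 0) →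
  ∀ (C : Matrix (Fin 2) (Fin 2) k) (T : ι → Matrix (Fin 2) (Fin 2) k),
    C.trace = 0 → (∀ i, T i * T i = 0) →
    (∀ i, (u i • C + ∑ j, lam i j • T j) * T i - T i * (u i • C + ∑ j, lam i j • T j) =
      ((e : k) * u i) • T i) →
    (∃ v : Fin 2 → k, v ≠ 0 ∧ Eig C v ∧ Eig (∑ j, b j • T j) v) →
    ∀ i j, T i * T j = 0

/-- down to any field: `T i * T j = 0` for all `i`, `j` gives a common eigenvector -/
def StEig : Prop := ∀ (K : Type) [Field K] (ι : Type) [Fintype ι] [DecidableEq ι]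
  (lam : ι → ι → K) (u b : ι → K) (ε : K), (2 : K) ≠ 0 → (∀ i, u i ≠ 0) →
  ∀ (C : Matrix (Fin 2) (Fin 2) K) (T : ι → Matrix (Fin 2) (Fin 2) K),
    C.trace = 0 → (∀ i, T i * T i = 0) →
    (∀ i, (u i • C + ∑ j, lam i j • T j) * T i - T i * (u i • C + ∑ j, lam i j • T j) =
      (ε * u i) • T i) →
    (∃ v : Fin 2 → K, v ≠ 0 ∧ Eig C v ∧ Eig (∑ j, b j • T j) v) →
    (∀ i j, T i * T j = 0) →
    ∃ w : Fin 2 → K, w ≠ 0 ∧ Eig C w ∧ ∀ i, Eig (T i) w

end Pool.Agent.T9h32.OR
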